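import Pool.Agent.Lib.MP_cb9dee_al.Final
import Pool.Agent.Lib.MP_cb9dee_al.DMain

namespace Pool.Agent.Results.MP_cb9dee_al.Complete

open Pool.Agent.Lib.MP_cb9dee_al

theorem result (n : ℕ) (h0 : 1 ≤ n) : Rigid n ↔ Full n :=
  ⟨full_of_rigid (by omega), rigid_of_full_of (fun _ _ _ _ _ _ c a b => rigid_I c a b) (by omega)⟩

end Pool.Agent.Results.MP_cb9dee_al.Complete
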