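import Pool.Agent.Lib.RG67.Main
import Pool.Agent.Lib.MP_cb9dee_al.Final
import Pool.Agent.Lib.MP_cb9dee_al.DMain

open Pool.Agent.Lib.MP_cb9dee_al Filter Topology Real

theorem Pool.Agent.Results.MP_cb9dee_al.Density.result :
    Tendsto (fun N : ℕ =>
      ({n : ℕ | 1 ≤ n ∧ n ≤ N ∧ Rigid n}.ncard : ℝ) * log (log (log N)) / N) atTop
      (𝓝 (3 / 2 * exp (-eulerMascheroniConstant))) := by
  refine Pool.Agent.Lib.RG67.count_lim.congr fun N => ?_
  rw [← Set.ncard_coe_finset]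
  congr 4
  ext n
  simp only [Pool.Agent.Lib.RG67.AA, Finset.coe_filter, Finset.mem_Ioc, Set.mem_ofPred_eq, and_assoc]
  exact and_congr_right fun h => and_congr_right fun _ =>
    ⟨rigid_of_full_of (fun _ _ _ _ _ _ c a b => rigid_I c a b) h.ne', full_of_rigid h.ne'⟩
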